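import Pool.Agent.W65.FS.Final

/-!
# MP_0ad054_nt: almost prime pairs

The statement of the question with primes replaced by almost primes: there is an absolute `K`
such that every positive odd integer `n` is a sum of four squares `x² + y² + z² + w²` for which both
`p = x² + 3 y² + 5 z² + 7 w²` and `p - 2` have at most `K` prime factors (counted with multiplicity),
all of them larger than `n ^ δ`; and the number of such representations is at least `c n ^ (1 - ε)`,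
for any prescribed `ε > 0`.
-/

set_option autoImplicit false

namespace Pool.Agent.Results.MP_0ad054_nt.AlmostPrimePairs

theorem result (ε : ℝ) (hε : 0 < ε) :
    ∃ K : ℕ, ∃ δ : ℝ, 0 < δ ∧ ∃ c : ℝ, 0 < c ∧ ∀ n : ℕ, Odd n →
      ∃ S : Finset (ℤ × ℤ × ℤ × ℤ), c * (n : ℝ) ^ (1 - ε) ≤ (S.card : ℝ) ∧
        ∀ x y z w : ℤ, (x, y, z, w) ∈ S →
          (n : ℤ) = x ^ 2 + y ^ 2 + z ^ 2 + w ^ 2 ∧
          0 < x ^ 2 + 3 * y ^ 2 + 5 * z ^ 2 + 7 * w ^ 2 ∧
          x ^ 2 + 3 * y ^ 2 + 5 * z ^ 2 + 7 * w ^ 2 - 2 ≠ 0 ∧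
          ArithmeticFunction.cardFactors (x ^ 2 + 3 * y ^ 2 + 5 * z ^ 2 + 7 * w ^ 2).natAbs ≤ K ∧
          ArithmeticFunction.cardFactors (x ^ 2 + 3 * y ^ 2 + 5 * z ^ 2 + 7 * w ^ 2 - 2).natAbs ≤ K ∧
          ∀ q : ℕ, q.Prime →
            (q : ℤ) ∣ (x ^ 2 + 3 * y ^ 2 + 5 * z ^ 2 + 7 * w ^ 2) *
              (x ^ 2 + 3 * y ^ 2 + 5 * z ^ 2 + 7 * w ^ 2 - 2) → (n : ℝ) ^ δ < q := by
  classical
  obtain ⟨K, δ, hδ, c, hc, h⟩ := Pool.Agent.W65.FS.uniform ε hε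
  refine ⟨K, δ, hδ, c, hc, fun n hn => ?_⟩
  obtain ⟨S, hS1, hS2⟩ := h n hn
  refine ⟨S.image (fun X => (X 0, X 1, X 2, X 3)), ?_, ?_⟩
  · rw [Finset.card_image_of_injective]
    · exact hS1
    · intro X Y hXY
      simp only [Prod.mk.injEq] at hXY
      obtain ⟨h0, h1, h2, h3⟩ := hXY
      funext i
      fin_cases i
      · exact h0
      · exact h1
      · exact h2
      · exact h3
  · intro x y z w hxyz
    rw [Finset.mem_image] at hxyz
    obtain ⟨X, hX, hXe⟩ := hxyz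
    simp only [Prod.mk.injEq] at hXe
    obtain ⟨rfl, rfl, rfl, rfl⟩ := hXe
    obtain ⟨h1, h2, h3, h4, h5, h6⟩ := hS2 X hX
    refine ⟨?_, h3, h4, h5, h6, h2⟩
    rw [← h1, Fin.sum_univ_four]

end Pool.Agent.Results.MP_0ad054_nt.AlmostPrimePairs
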